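import Mathlib

set_option autoImplicit false

namespace Pool.Agent.Results.MP_1d6438_gt.Counter

open Set Metric Topology Filter

noncomputable def a (p : ℕ∞ × ℕ) : ℝ := if p.1 ≤ p.2 then 1 / (p.2 + 3) else 0

noncomputable def w (p : ℕ∞ × ℕ) : ℝ := 2 * p.2 + 2 + a p

lemma a_bd (p) : 0 ≤ a p ∧ a p ≤ 1 / (p.2 + 3) := by
  unfold a
  split_ifs
  · exact ⟨by positivity, le_rfl⟩
  · exact ⟨le_rfl, by positivity⟩

lemma a_bd' (p) : a p ≤ 1 / 3 :=
  (a_bd p).2.trans (one_div_le_one_div_of_le (by norm_num) (by simp))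

lemma w_ge (p) : 2 ≤ w p := by
  have := (a_bd p).1
  have : (0 : ℝ) ≤ p.2 := by positivity
  unfold w
  linarith

def X : Type := ℕ∞ × ℕ

noncomputable def d (p q : ℕ∞ × ℕ) : ℝ :=
  if p = q then 0 else w p + w q + if p.1 = q.1 then 0 else 1

noncomputable instance : MetricSpace X where
  dist := d
  dist_self p := if_pos rfl
  dist_comm p q := by simp only [d, eq_comm, add_comm]
  dist_triangle p q r := by
    have := w_ge p
    have := w_ge q
    have := w_ge r
    unfold d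
    split_ifs <;> simp_all <;> linarith
  eq_of_dist_eq_zero {p q} h := by
    have := w_ge p
    have := w_ge q
    by_contra h1
    have h := (if_neg h1).symm.trans h
    split_ifs at h <;> linarith

theorem result : ∃ (X Y : Type) (_ : MetricSpace X) (_ : MetricSpace Y), Nonempty X ∧ Nonempty Y ∧
    IsClosed (range fun p : X × X => dist p.1 p.2) ∧
    IsDiscrete (range fun p : X × X => dist p.1 p.2) ∧
    (∀ ε > 0, ∃ (Z : Type) (_ : MetricSpace Z) (i : X → Z) (j : Y → Z), Isometry i ∧ Isometry j ∧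
      hausdorffEDist (range i) (range j) < ε) ∧ IsEmpty (X ≃ᵢ Y) := by
  let Y := {p : X // p.1 ≠ ⊤}
  refine ⟨X, Y, inferInstance, inferInstance, ⟨(0, 0)⟩, ⟨⟨(0, 0), by simp⟩⟩, ?_⟩
  rw [← and_assoc]
  refine ⟨isClosed_and_discrete_iff.2 fun x => ?_, fun ε hε => ?_, ⟨fun e => ?_⟩⟩
  · obtain ⟨N, hN⟩ := exists_nat_gt (x + 1)
    have h1 : (w '' {p | p.2 < N}).Finite := by
      refine (((finite_Iio N).prod (finite_univ (α := Prop))).image fun q : ℕ × Prop =>
        open Classical in 2 * (q.1 : ℝ) + 2 + if q.2 then 1 / ((q.1 : ℝ) + 3) else 0).subset ?_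
      rintro _ ⟨p, hp, rfl⟩
      exact ⟨(p.2, p.1 ≤ p.2), ⟨hp, trivial⟩, by simp [w, a]⟩
    have h2 := (Finite.image2 (· + ·) (Finite.image2 (· + ·) h1 h1)
      (toFinite ({0, 1} : Set ℝ))).insert 0
    refine disjoint_of_disjoint_of_mem disjoint_compl_left ?_ (mem_principal_self _)
    refine mem_of_superset (inter_mem (mem_nhdsWithin_of_mem_nhds (Iio_mem_nhds (lt_add_one x)))
      (nhdsNE_le_cofinite x h2.compl_mem_cofinite)) ?_
    rintro _ ⟨h3, h4⟩ ⟨⟨p, q⟩, rfl⟩
    have h5 : ∀ p : ℕ∞ × ℕ, w p < N → p.2 < N := fun p h => by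
      have := (a_bd p).1
      have : (0 : ℝ) ≤ p.2 := by positivity
      unfold w at h
      exact_mod_cast (show (p.2 : ℝ) < N by linarith)
    have := w_ge p
    have := w_ge q
    change d p q < _ at h3
    refine h4 (show d p q ∈ _ from ?_)
    unfold d at h3 ⊢
    split_ifs at h3 ⊢
    · exact Or.inl rfl
    all_goals
      exact Or.inr ⟨_, ⟨_, ⟨p, h5 p (by linarith), rfl⟩, _, ⟨q, h5 q (by linarith), rfl⟩, rfl⟩, _,
        by simp, rfl⟩
  · obtain ⟨N, hN⟩ := ENNReal.exists_inv_nat_lt hε.ne'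
    let s : ℕ∞ → ℕ∞ := fun k => if k = ⊤ then N else if k < N then k else k + 1
    have s0 : ∀ k : ℕ, s k = (if k < N then k else k + 1 : ℕ) := fun k => by simp [s]
    have s1 : ∀ k, s k ≠ ⊤ := fun k => by
      induction k using ENat.recTopCoe
      · simp [s]
      · rw [s0]; exact ENat.natCast_ne_top _
    have s2 : s.Injective := fun k l h => by
      induction k using ENat.recTopCoe <;> induction l using ENat.recTopCoe <;>
        simp only [s0, show s ⊤ = N from if_pos rfl, Nat.cast_inj] at h ⊢ <;> grind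
    have s3 : ∀ p : ℕ∞ × ℕ, |w p - w (s p.1, p.2)| ≤ 1 / (N + 3) := by
      rintro ⟨k, n⟩
      rcases lt_or_ge n N with h | h
      · have : k ≤ n ↔ s k ≤ n := by
          induction k using ENat.recTopCoe
          · simpa [s] using h
          · simp only [s0, Nat.cast_le]
            grind
        simp only [w, a, this, sub_self, abs_zero]
        positivity
      · have h1 : (1 : ℝ) / (n + 3) ≤ 1 / (N + 3) := by gcongr
        have := a_bd (k, n)
        have := a_bd (s k, n)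
        rw [abs_le]
        constructor <;> simp only [w] at * <;> linarith
    let Ψ : X → Y := fun p => ⟨(s p.1, p.2), s1 _⟩
    have : Nonempty X := ⟨(0, 0)⟩
    have H : ∀ p q : X, |dist (id p) (id q) - dist (Ψ p) (Ψ q)| ≤ 2 * (1 / (N + 3)) := by
      rintro ⟨k, n⟩ ⟨l, m⟩
      change |d (k, n) (l, m) - d (s k, n) (s l, m)| ≤ _
      have h1 := abs_le.1 (s3 (k, n))
      have h2 := abs_le.1 (s3 (l, m))
      simp only [d, Prod.mk.injEq, s2.eq_iff] at *
      rw [abs_le]
      split_ifs <;> constructor <;> linarith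
    let _ := glueMetricApprox id Ψ _ (by positivity) H
    refine ⟨X ⊕ Y, inferInstance, Sum.inl, Sum.inr, Isometry.of_dist_eq fun _ _ => rfl,
      Isometry.of_dist_eq fun _ _ => rfl, lt_of_le_of_lt ?_ hN⟩
    have h1 : ∀ p, edist (Sum.inl p : X ⊕ Y) (Sum.inr (Ψ p)) ≤ (N : ENNReal)⁻¹ := fun p => by
      rw [edist_dist, show dist _ _ = _ from glueDist_glued_points id Ψ _ p, one_div,
        ENNReal.ofReal_inv_of_pos (by positivity), ENNReal.inv_le_inv, ← ENNReal.ofReal_natCast]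
      exact ENNReal.ofReal_le_ofReal (by linarith)
    refine hausdorffEDist_le_of_mem_edist (forall_mem_range.2 fun p => ⟨_, ⟨_, rfl⟩, h1 p⟩)
      (forall_mem_range.2 ?_)
    rintro ⟨⟨k, n⟩, hk⟩
    obtain ⟨l, rfl⟩ : ∃ l, s l = k := by
      lift k to ℕ using hk
      rcases lt_trichotomy k N with h | rfl | h
      · exact ⟨k, by rw [s0, if_pos h]⟩
      · exact ⟨⊤, if_pos rfl⟩
      · exact ⟨(k - 1 : ℕ), by rw [s0, if_neg (by omega), Nat.sub_add_cancel (by omega)]⟩
    exact ⟨_, ⟨(l, n), rfl⟩, edist_comm (α := X ⊕ Y) _ _ ▸ h1 (l, n)⟩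
  · obtain ⟨⟨⟨k, n⟩, hk⟩, h1⟩ : ∃ y, e ((⊤, 0) : ℕ∞ × ℕ) = y := ⟨_, rfl⟩
    lift k to ℕ using hk with k hk'
    obtain ⟨⟨l, m⟩, h2⟩ := e.surjective ⟨((k : ℕ∞), k + n + 1), ENat.natCast_ne_top k⟩
    have h3 := e.dist_eq ((⊤, 0) : ℕ∞ × ℕ) (l, m)
    rw [h1, h2] at h3
    change d (k, n) (k, k + n + 1) = d (⊤, 0) (l, m) at h3
    have b1 := a_bd (k, n)
    have b2 := a_bd' (k, n)
    have b3 := a_bd' (k, k + n + 1)
    have b4 : 0 < a (k, k + n + 1) := by
      rw [a, if_pos (Nat.cast_le.2 (by omega : k ≤ k + n + 1))]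
      positivity
    have b5 := a_bd (l, m)
    have b6 := a_bd' (l, m)
    have b7 : a (⊤, 0) = 0 := by simp [a]
    rw [d, if_neg fun h => by have : n = k + n + 1 := congrArg Prod.snd h; omega, if_pos rfl, d] at h3
    have b8 : ∀ i j : ℕ, ¬ ((i : ℝ) < j ∧ (j : ℝ) < i + 1) := fun i j h => by
      have h4 : i < j := by exact_mod_cast h.1
      have h5 : j < i + 1 := by exact_mod_cast h.2
      omega
    split_ifs at h3 with h4 h5
    · linarith [w_ge (k, n), w_ge (k, k + n + 1)]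
    · have : a (l, m) = 0 := by simp [a, ← show ⊤ = l from h5]
      simp only [w] at h3
      refine b8 (n + (k + n + 1)) m ⟨?_, ?_⟩ <;> push_cast at h3 ⊢ <;> linarith
    · simp only [w] at h3
      refine b8 m (n + (k + n + 1)) ⟨?_, ?_⟩ <;> push_cast at h3 ⊢ <;> linarith

end Pool.Agent.Results.MP_1d6438_gt.Counter
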